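import Pool.Agent.SPE.Main
import Pool.Agent.SPE.Exa

/-!
# MP_e2be99_lc: hitting sets of polynomial size for limits of sums of `k` pieces

A piece (`Pool.Agent.SPE.Piece c s d`) is `h * ∏_i p_i(l_i1, ..., l_ic)` of total degree at most `d`
with at most `d` factors, `l_ib` affine forms, `p_i` of degree at most `d`, `h` in a space of
dimension at most `s` closed under partial derivatives.
-/

set_option autoImplicit false

namespace Pool.Agent.Results.MP_e2be99_lc.BorderTopFanin

open Pool.Agent.SPE

/-- The hitting set: the points `x_i = A_i(u) + z A_i(t)`, `A_i(t) = ∑_{r=1..M} (M!/r) (i t)^r`. -/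
def hittingSet (n k c s d : ℕ) : Finset (Fin n → ℕ) :=
  ((Finset.range (k * d * (d * MM n k c s d) + 1) ×ˢ Finset.range (d + 1)) ×ˢ
    Finset.range (d * MM n k c s d + 1)).image
    fun y => fun i => AA (MM n k c s d) (i + 1) y.1.1 + y.1.2 * AA (MM n k c s d) (i + 1) y.2

theorem result.{u, v, w} (n k c s d : ℕ) :
    (hittingSet n k c s d).card ≤
      (k * d * (d * MM n k c s d) + 1) * (d + 1) * (d * MM n k c s d + 1) ∧
    (∀ x ∈ hittingSet n k c s d, ∀ i, x i ≤ (d + 1) * (MM n k c s d * ((MM n k c s d).factorial *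
      (n * (k * d * (d * MM n k c s d) + d * MM n k c s d) + 1) ^ MM n k c s d))) ∧
    (∀ (K : Type v) [Field K] (m r : ℕ) (p : Fin m → MvPolynomial (Fin c) K)
      (e : Fin m → Fin c → K) (l : Fin m → Fin c → Fin n → K) (a e0 : Fin r → K)
      (l0 : Fin r → Fin n → K) (q : Fin r → ℕ), m ≤ d → (∀ i, (p i).totalDegree ≤ d) →
      (∀ i, q i ≤ d) →
      ((∏ i, junta (p i) (e i) (l i)).totalDegree ≤ d →
        Piece c 1 d (∏ i, junta (p i) (e i) (l i))) ∧
      (((∑ i, MvPolynomial.C (a i) * aff (e0 i) (l0 i) ^ q i) *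
        ∏ i, junta (p i) (e i) (l i)).totalDegree ≤ d →
        Piece c (r * (d + 1)) d ((∑ i, MvPolynomial.C (a i) * aff (e0 i) (l0 i) ^ q i) *
          ∏ i, junta (p i) (e i) (l i)))) ∧
    ∀ (O : Type u) [CommRing O] [IsDomain O] [ValuationRing O] (K : Type v) [Field K] [Algebra O K]
      [IsFractionRing O K] (F : Type w) [Field F] [CharZero F] (res : O →+* F) [IsLocalHom res]
      (T : Fin k → MvPolynomial (Fin n) K) (_ : ∀ j, Piece c s d (T j))
      (f : MvPolynomial (Fin n) O) (_ : MvPolynomial.map (algebraMap O K) f = ∑ j, T j)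
      (_ : MvPolynomial.map res f ≠ 0) (g : MvPolynomial (Fin n) F)
      (_ : g ∣ MvPolynomial.map res f),
      ∃ x ∈ hittingSet n k c s d, MvPolynomial.eval (fun i => (x i : F)) g ≠ 0 := by
  refine ⟨?_, ?_, ?_, ?_⟩
  · refine Finset.card_image_le.trans ?_
    rw [Finset.card_product, Finset.card_product, Finset.card_range, Finset.card_range,
      Finset.card_range]
  · intro x hx i
    obtain ⟨⟨⟨u, z⟩, t⟩, hy, rfl⟩ := Finset.mem_image.1 hx
    rw [Finset.mem_product, Finset.mem_product, Finset.mem_range, Finset.mem_range,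
      Finset.mem_range] at hy
    obtain ⟨⟨hu, hz⟩, ht⟩ := hy
    simp only at hu hz ht ⊢
    set M := MM n k c s d with hM
    have hA : ∀ t : ℕ, t ≤ k * d * (d * M) + d * M →
        AA M (i + 1) t ≤ M * (M.factorial * (n * (k * d * (d * M) + d * M) + 1) ^ M) := by
      intro t ht
      unfold AA
      have h1 : ∀ r ∈ Finset.Icc 1 M, M.factorial / r * (((i : ℕ) + 1) * t) ^ r ≤
          M.factorial * (n * (k * d * (d * M) + d * M) + 1) ^ M := by
        intro r hr
        rw [Finset.mem_Icc] at hr
        refine Nat.mul_le_mul (Nat.div_le_self _ _) ?_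
        have h2 : ((i : ℕ) + 1) * t ≤ n * (k * d * (d * M) + d * M) + 1 :=
          (Nat.mul_le_mul i.2 ht).trans (Nat.le_succ _)
        exact (Nat.pow_le_pow_left h2 r).trans (Nat.pow_le_pow_right (Nat.succ_pos _) hr.2)
      refine (Finset.sum_le_sum h1).trans (le_of_eq ?_)
      rw [Finset.sum_const, Nat.card_Icc, smul_eq_mul, Nat.add_sub_cancel]
    have h1 := hA u (by omega)
    have h2 := hA t (by omega)
    calc AA M (i + 1) u + z * AA M (i + 1) t ≤
        M * (M.factorial * (n * (k * d * (d * M) + d * M) + 1) ^ M) +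
          d * (M * (M.factorial * (n * (k * d * (d * M) + d * M) + 1) ^ M)) :=
          Nat.add_le_add h1 (Nat.mul_le_mul (by omega) h2)
      _ = _ := by ring
  · intro K _ m r p e l a e0 l0 q hm hp hq
    exact ⟨piece_prod c d m hm p e l hp, piece_sum_pow c d m r hm p e l hp a e0 l0 q hq⟩
  · intro O _ _ _ K _ _ _ F _ _ res _ T hT f hf hF g hg
    have hres : (IsLocalRing.ResidueField.lift res).comp (IsLocalRing.residue O) = res :=
      RingHom.ext fun x => IsLocalRing.ResidueField.lift_residue_apply res x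
    have hinj : Function.Injective (IsLocalRing.ResidueField.lift res) :=
      (IsLocalRing.ResidueField.lift res).injective
    haveI : CharZero (IsLocalRing.ResidueField O) :=
      (IsLocalRing.ResidueField.lift res).charZero
    have hF' : MvPolynomial.map (IsLocalRing.residue O) f ≠ 0 := by
      intro h
      apply hF
      rw [← hres, ← MvPolynomial.map_map, h, map_zero]
    obtain ⟨u, z, t, hu, hz, ht, hne⟩ := core n k c s d T hT f hf hF'
    refine ⟨_, Finset.mem_image.2 ⟨((u, z), t), ?_, rfl⟩, ?_⟩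
    · rw [Finset.mem_product, Finset.mem_product, Finset.mem_range, Finset.mem_range,
        Finset.mem_range]
      exact ⟨⟨Nat.lt_succ_of_le hu, Nat.lt_succ_of_le hz⟩, Nat.lt_succ_of_le ht⟩
    · intro h0
      obtain ⟨q, hq⟩ := hg
      have h1 : MvPolynomial.eval (fun i : Fin n => ((AA (MM n k c s d) (i + 1) u +
          z * AA (MM n k c s d) (i + 1) t : ℕ) : F)) (MvPolynomial.map res f) = 0 := by
        rw [hq, map_mul, h0, zero_mul]
      apply hne
      apply hinj
      rw [map_zero, ← h1, MvPolynomial.map_eval, MvPolynomial.map_map, hres]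
      congr 2
      funext i
      exact map_natCast _ _

end Pool.Agent.Results.MP_e2be99_lc.BorderTopFanin
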