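import Pool.Agent.SPH.Main
import Pool.Agent.SPH.Exa
import Pool.Agent.SPH.Par

/-!
# MP_e2be99_lc: hitting sets of polynomial size for limits of polynomials in terms of bounded
transcendence degree, and for divisors of products of these

A term (`Pool.Agent.SPH.Term c s d`) is `∏_a h_a^(b_a) * ∏_i p_i(l_i1, ..., l_ic)^(q_i)`: exponents at
least 1, `h_a` in a space `V_a` closed under partial derivatives, the product of the dimensions of the
`V_a` at most `s`, at most `d` factors `p_i(..)`, `l_ib` affine forms, `p_i` of degree at most `d`,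
`∏_a h_a * ∏_i p_i(..)` of total degree at most `d`.
-/

set_option autoImplicit false

namespace Pool.Agent.Results.MP_e2be99_lc.BorderTranscendenceDegree

open Pool.Agent.SPE Pool.Agent.SPH

/-- The hitting set: the points `x_i = A_i(u) + z A_i(t) + ∑_{l < k} ζ_l y_l^(i-1)`, `1 ≤ i ≤ n`,
`A_i(t) = ∑_{r=1..M} (M!/r) (i t)^r`, `u, t ≤ DM`, `z ≤ D`, `y_l ≤ Dn`, `ζ_l ≤ D`. -/
def hittingSet (n k c s d D : ℕ) : Finset (Fin n → ℕ) :=
  ((Finset.range (D * M0 n k c s d + 1) ×ˢ (Finset.range (D + 1) ×ˢ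
    Finset.range (D * M0 n k c s d + 1))) ×ˢ
    (Fintype.piFinset (fun _ : Fin k => Finset.range (D * n + 1)) ×ˢ
      Fintype.piFinset (fun _ : Fin k => Finset.range (D + 1)))).image
    fun w => fun i => AA (M0 n k c s d) (i + 1) w.1.1 +
      w.1.2.1 * AA (M0 n k c s d) (i + 1) w.1.2.2 + ∑ l, w.2.2 l * w.2.1 l ^ (i : ℕ)

/-- `P` is the image, under a local homomorphism `O → F`, of a polynomial over the valuation ring `O`
which is algebraic over `K(T_1, ..., T_N)`, `K` the fraction field of `O`, `T_j` terms over `K`, no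
`k + 1` of them algebraically independent. -/
def Limit.{u, v, w} (n k c s d : ℕ) {F : Type w} [Field F] (P : MvPolynomial (Fin n) F) : Prop :=
  ∃ (O : Type u) (_ : CommRing O) (_ : IsDomain O) (_ : ValuationRing O) (K : Type v) (_ : Field K)
    (_ : Algebra O K) (_ : IsFractionRing O K) (res : O →+* F) (_ : IsLocalHom res) (N : ℕ)
    (T : Fin N → MvPolynomial (Fin n) K) (f : MvPolynomial (Fin n) O), (∀ j, Term c s d (T j)) ∧
    (∀ ι : Fin (k + 1) → Fin N, ¬ AlgebraicIndependent K (fun j => T (ι j))) ∧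
    IsAlgebraic (Algebra.adjoin K (Set.range T)) (MvPolynomial.map (algebraMap O K) f) ∧
    MvPolynomial.map res f = P

theorem result.{u, v, w} (n k c s d D : ℕ) :
    (hittingSet n k c s d D).card ≤
      (D * M0 n k c s d + 1) * ((D + 1) * (D * M0 n k c s d + 1)) *
        ((D * n + 1) ^ k * (D + 1) ^ k) ∧
    (∀ x ∈ hittingSet n k c s d D, ∀ i, x i ≤ (D + 1) * (M0 n k c s d *
      ((M0 n k c s d).factorial * (n * (D * M0 n k c s d) + 1) ^ M0 n k c s d)) +
        k * (D * (D * n + 1) ^ n)) ∧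
    (∀ (K : Type v) [Field K] (A m r : ℕ) (p : Fin m → MvPolynomial (Fin c) K)
      (e : Fin m → Fin c → K) (l : Fin m → Fin c → Fin n → K) (b : Fin m → ℕ)
      (a e0 : Fin A → Fin r → K) (l0 : Fin A → Fin r → Fin n → K) (q : Fin A → Fin r → ℕ)
      (b0 : Fin A → ℕ), m ≤ d → (∀ i, (p i).totalDegree ≤ d) →
      (∀ i, 1 ≤ b i) → (∀ v i, q v i ≤ d) → (∀ v, 1 ≤ b0 v) →
      ((∏ i, junta (p i) (e i) (l i)).totalDegree ≤ d →
        Term c 1 d (∏ i, junta (p i) (e i) (l i) ^ b i)) ∧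
      (((∏ v, ∑ i, MvPolynomial.C (a v i) * aff (e0 v i) (l0 v i) ^ q v i) *
        ∏ i, junta (p i) (e i) (l i)).totalDegree ≤ d →
        Term c ((r * (d + 1)) ^ A) d
          ((∏ v, (∑ i, MvPolynomial.C (a v i) * aff (e0 v i) (l0 v i) ^ q v i) ^ b0 v) *
            ∏ i, junta (p i) (e i) (l i) ^ b i))) ∧
    ∀ (F : Type w) [Field F] [CharZero F] (m : ℕ) (P : Fin m → MvPolynomial (Fin n) F)
      (_ : ∀ j, P j ≠ 0 ∧ Limit.{u, v, w} n k c s d (P j)) (g : MvPolynomial (Fin n) F)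
      (_ : g ∣ ∏ j, P j) (_ : g.totalDegree ≤ D),
      ∃ x ∈ hittingSet n k c s d D, MvPolynomial.eval (fun i => (x i : F)) g ≠ 0 := by
  refine ⟨?_, ?_, ?_, ?_⟩
  · refine Finset.card_image_le.trans ?_
    rw [Finset.card_product, Finset.card_product, Finset.card_product, Finset.card_product,
      Finset.card_range, Finset.card_range, Fintype.card_piFinset,
      Fintype.card_piFinset]
    simp
  · intro x hx i
    obtain ⟨⟨⟨u, z, t⟩, y, ζ⟩, hy, rfl⟩ := Finset.mem_image.1 hx
    simp only [Finset.mem_product, Finset.mem_range, Fintype.mem_piFinset] at hy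
    obtain ⟨⟨hu, hz, ht⟩, hy, hζ⟩ := hy
    simp only
    set M := M0 n k c s d with hM
    have hA : ∀ t : ℕ, t ≤ D * M →
        AA M (i + 1) t ≤ M * (M.factorial * (n * (D * M) + 1) ^ M) := by
      intro t ht
      unfold AA
      have h1 : ∀ r ∈ Finset.Icc 1 M, M.factorial / r * (((i : ℕ) + 1) * t) ^ r ≤
          M.factorial * (n * (D * M) + 1) ^ M := by
        intro r hr
        rw [Finset.mem_Icc] at hr
        refine Nat.mul_le_mul (Nat.div_le_self _ _) ?_
        have h2 : ((i : ℕ) + 1) * t ≤ n * (D * M) + 1 :=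
          (Nat.mul_le_mul i.2 ht).trans (Nat.le_succ _)
        exact (Nat.pow_le_pow_left h2 r).trans (Nat.pow_le_pow_right (Nat.succ_pos _) hr.2)
      refine (Finset.sum_le_sum h1).trans (le_of_eq ?_)
      rw [Finset.sum_const, Nat.card_Icc, smul_eq_mul, Nat.add_sub_cancel]
    have h1 := hA u (by omega)
    have h2 := hA t (by omega)
    have h3 : ∑ l, ζ l * y l ^ (i : ℕ) ≤ k * (D * (D * n + 1) ^ n) := by
      have h4 : ∀ l ∈ (Finset.univ : Finset (Fin k)), ζ l * y l ^ (i : ℕ) ≤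
          D * (D * n + 1) ^ n := by
        intro l _
        refine Nat.mul_le_mul (Nat.le_of_lt_succ (hζ l)) ?_
        exact (Nat.pow_le_pow_left (Nat.le_of_lt (hy l)) _).trans
          (Nat.pow_le_pow_right (Nat.succ_pos _) (Nat.le_of_lt i.2))
      refine (Finset.sum_le_sum h4).trans (le_of_eq ?_)
      rw [Finset.sum_const, Finset.card_univ, Fintype.card_fin, smul_eq_mul]
    refine Nat.add_le_add ?_ h3
    calc AA M (i + 1) u + z * AA M (i + 1) t ≤
        M * (M.factorial * (n * (D * M) + 1) ^ M) + D * (M * (M.factorial * (n * (D * M) + 1) ^ M)) :=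
          Nat.add_le_add h1 (Nat.mul_le_mul (by omega) h2)
      _ = _ := by ring
  · intro K _ A m r p e l b a e0 l0 q b0 hm hp hb hq hb0
    exact ⟨term_prod c d m hm p e l b hp hb,
      term_sum_pow A c d m r hm p e l b hp hb a e0 l0 q hq b0 hb0⟩
  · intro F _ _ m P hP g hg hgD
    obtain ⟨v, hv, hne⟩ := par_hit (F := F) (M0 n k c s d) n k m D P (fun j => by
      obtain ⟨hPj, O, _, _, _, K, _, _, _, res, _, N, T, f, hT, htr, hf, hfP⟩ := hP j
      obtain ⟨u, z, t, y, ζ, -, -, -, -, -, hne⟩ :=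
        core res n N k c s d _ T hT htr f hf (hfP ▸ hPj) (P j) (hfP ▸ dvd_rfl) le_rfl
      exact ⟨Sum.elim (Sum.elim ![u, z, t] y) ζ, hne⟩) g hg hgD
    refine ⟨_, Finset.mem_image.2 ⟨((v (Sum.inl (Sum.inl 0)), (v (Sum.inl (Sum.inl 1)),
      v (Sum.inl (Sum.inl 2)))), (fun l => v (Sum.inl (Sum.inr l)), fun l => v (Sum.inr l))), ?_, rfl⟩,
      hne⟩
    simp only [Finset.mem_product, Finset.mem_range, Fintype.mem_piFinset]
    refine ⟨⟨Nat.lt_succ_of_le ?_, Nat.lt_succ_of_le ?_, Nat.lt_succ_of_le ?_⟩,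
      fun l => Nat.lt_succ_of_le ?_, fun l => Nat.lt_succ_of_le ?_⟩
    · simpa [bd] using hv (Sum.inl (Sum.inl 0))
    · simpa [bd] using hv (Sum.inl (Sum.inl 1))
    · simpa [bd] using hv (Sum.inl (Sum.inl 2))
    · simpa [bd] using hv (Sum.inl (Sum.inr l))
    · simpa [bd] using hv (Sum.inr l)

end Pool.Agent.Results.MP_e2be99_lc.BorderTranscendenceDegree
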