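import Pool.Agent.Helper7.T1.Final

/-!
# Black-box identity testing for depth-4 circuits of bounded top fan-in

Explicit hitting sets for sums of boundedly many products (more generally, for polynomials in
boundedly many algebraically independent products, and their divisors) of sparse polynomials of
bounded individual degree, of polynomials of bounded degree, of sums of univariate polynomials, of
polynomials in boundedly many variables.
-/

namespace Pool.Agent.Helper7.Kept.Depth4TopFanin

open MvPolynomial Pool.Agent.Helper7 Pool.Agent.Helper7.Depth4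

theorem result (n K a s P c κ d q R : ℕ) (hq : q.Prime) (hq1 : seeds K a P c κ * d < q)
    (hq2 : (seeds K a P c κ).factorial * (s + κ * (d + 1) ^ c + 1) ^ seeds K a P c κ * n ≤ q) :
    (hittingSet n q (seeds K a P c κ + K) R).card ≤ (R + 1) ^ (2 + 2 * (seeds K a P c κ + K)) ∧
    ∀ (N m : ℕ) (lam : Fin N → ℚ) (g : Fin N → Fin m → MvPolynomial (Fin n) ℚ)
      (e : Fin N → Fin m → ℕ), (∀ i j, Factor n K a s P c κ d (g i j)) →
      (∀ b : Finset (Fin N),
        AlgebraicIndepOn ℚ (fun i => ∏ j, g i j ^ e i j) (b : Set (Fin N)) → b.card ≤ K) →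
      ∑ i, C (lam i) * ∏ j, g i j ^ e i j ≠ 0 →
      ∀ f : MvPolynomial (Fin n) ℚ, f ∣ ∑ i, C (lam i) * ∏ j, g i j ^ e i j →
        (2 * q * f.totalDegree ≤ R ∨
          2 ^ (N + 1) * (2 * q * ∑ i, ∑ j, (g i j).totalDegree) + N ≤ R) →
        ∃ x ∈ hittingSet n q (seeds K a P c κ + K) R, eval x f ≠ 0 :=
  ⟨T1.card_hittingSet n q _ R,
    fun _ _ lam g e hg htr h0 f hf hR => T1.hit hq hq1 hq2 lam g e hg htr h0 f hf hR⟩

end Pool.Agent.Helper7.Kept.Depth4TopFanin
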