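import Pool.Agent.CLO.St

/-!
# MP_e2be99_lc: hitting sets of polynomial size for limits of orbits of formulas of bounded depth and
bounded occurrence

The class is `Pool.Agent.CLO.LimitOrbit`; frames: `Pool.Agent.ORG.IsFrame`; leaves:
`Pool.Agent.CLO.Leaf`; numbers: `ordC` (`M`), `radC` (`R`), `seeds`; points: `hitC`,
`Pool.Agent.ORA.hitSet`.
-/

set_option autoImplicit false

namespace Pool.Agent.Results.MP_e2be99_lc.LimitFormulas

open MvPolynomial Pool.Agent.ORB Pool.Agent.ORA Pool.Agent.CLO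

theorem result.{u, v, w} (n κ k c s d Δ D : ℕ) :
    (hitC n κ k c s d Δ D).card ≤ (radC n κ k c s d Δ D + 1) ^ (2 * (2 + seeds κ k Δ)) ∧
    (∀ x ∈ hitC n κ k c s d Δ D, ∀ i,
      x i ≤ (2 + seeds κ k Δ) * radC n κ k c s d Δ D * (ordC n κ k c s d Δ *
        ((ordC n κ k c s d Δ).factorial *
          (n * radC n κ k c s d Δ D + 1) ^ ordC n κ k c s d Δ))) ∧
    (∀ (O : Type u) [CommRing O] [IsDomain O] [ValuationRing O] (K : Type v) [Field K]
      [Algebra O K], AdditiveFrame n c s d O K ∧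
      ∀ (T w r : ℕ) (e : Fin n ≃ (Fin T × Fin w × Fin w) ⊕ Fin r) (cut : Finset (Fin T))
        (B : Finset (Fin r)), 4 ^ w ≤ s → 2 ≤ s → GaugeFrame n c s d O K e cut B) ∧
    ∀ (F : Type w) [Field F] [CharZero F] (m : ℕ) (P : Fin m → MvPolynomial (Fin n) F)
      (_ : ∀ j, P j ≠ 0 ∧ LimitOrbit.{u, v, w} n κ k c s d Δ (P j)) (g : MvPolynomial (Fin n) F)
      (_ : g ∣ ∏ j, P j) (_ : g.totalDegree ≤ D),
      ∃ x ∈ hitC n κ k c s d Δ D, eval (fun i => (x i : F)) g ≠ 0 :=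
  ⟨card_hitSet n _ _ _, fun x hx i => bound_hitSet n _ _ _ x hx i,
    fun O _ _ _ K _ _ => ⟨additiveFrame n c s d O K,
      fun _ _ _ e cut B h4 h2 => gaugeFrame n c s d O K e cut B h4 h2⟩,
    fun _ _ _ m P hP g hg hD => main_hit κ k c s d Δ D m P hP g hg hD⟩

end Pool.Agent.Results.MP_e2be99_lc.LimitFormulas
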