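import Mathlib
import Pool.Agent.Helper7.RODefs
import Pool.Agent.Helper7.ROMain

/-!
# Black-box identity testing for read-once formulas over arbitrary bounded-arity gates

Explicit hitting sets for read-once formulas of unbounded depth whose gates compute *arbitrary*
polynomials of at most `t` arguments and whose leaves are arbitrary `s`-sparse polynomials.
-/

namespace Pool.Agent.Helper7.Kept.ReadOnceComposition

open MvPolynomial Finset Pool.Agent.Helper7.ReadOnceFormulas

universe u

/-- **Explicit hitting sets for read-once formulas over arbitrary bounded-arity gates with sparse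
leaves.**  Let `K` be an infinite field, `a 0, …, a (n-1)` distinct elements of `K`, and let `p` be
a prime larger than `D` and `n (n-1) (s-1)`.  If `#W > (p-1) D`, `#Y > D` and `#Z > (n-1) D`, then
the explicit set `hittingSet a t p W Y Z`, which has at most `p · #W · #Y · #Z ^ (t-1)` points,
contains a nonzero of every nonzero polynomial of degree at most `D` that is computed by a
read-once formula whose gates apply arbitrary polynomials of at most `t` arguments and whose leaves
are arbitrary polynomials with at most `s` monomials and degree at most `D`. -/
theorem result {K : Type u} [Field K] [Infinite K] {n : ℕ} (a : Fin n → K)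
    (ha : Function.Injective a) (s t D p : ℕ) (hp : p.Prime) (hpD : D < p)
    (hps : n * (n - 1) * (s - 1) < p) (W Y Z : Finset K) (hW : (p - 1) * D < #W)
    (hY : D < #Y) (hZ : (n - 1) * D < #Z) :
    #(hittingSet a t p W Y Z) ≤ p * #W * #Y * #Z ^ (t - 1) ∧
    ∀ (X : Set (Fin n)) (f : MvPolynomial (Fin n) K), ReadOnce K (Fin n) t s D X f →
      f ≠ 0 → f.totalDegree ≤ D → ∃ x ∈ hittingSet a t p W Y Z, eval x f ≠ 0 :=
  main a ha s t D p hp hpD hps W Y Z hW hY hZ

end Pool.Agent.Helper7.Kept.ReadOnceComposition
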