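import Pool.Agent.Helper7.DubStokes.Final

/-!
# Parts (a) and (b) of Dubrovin's conjecture (Q2) are equivalent
-/

namespace Pool.Agent.Results.MP_78bf89_ag.StokesConnection

open Pool.Agent.Helper18.Dub Pool.Agent.Helper7.DubStokes

/-- Let `X` be a Fano manifold (genus-zero theory in a homogeneous basis `φ_1, …, φ_N`), `M`
monodromy data of quantum cohomology at `t` (Stokes matrix `M.S`, central connection matrix `M.C`,
for any admissible line and the lexicographic order), `T` the Todd class, and `v_j = ch(E_j)` for an
exceptional collection of length `N`. The following are equivalent: the Stokes matrix is the Gram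
matrix (part (a)); `C = C' C''` with `C'' = (Ch(E_1), …, Ch(E_N))`, `Ch = (2πi)^deg ch`, and `C'`
commuting with `c_1(X)` (part (b)); the same with `C'` isometric; the monodromy of `X_-` is given by
the Gram matrix. Up to shifts `E_j[1]`, that is, signs of `v_j`, they are equivalent to the
existence of an isometric `A` such that, along one ray, the solutions `Z A v_j` are at most of the
growth of `e^{u_j/z}`. With `ch` in place of `Ch`, (a) and (b) contradict each other if
`c_1(X) ≠ 0`. -/
theorem result {N : ℕ} (X : FanoGW (Fin N)) (T : Fin N → ℂ) (hT : IsToddLike X T)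
    (t : Fin N → ℂ) (M : MonodromyData X t) (v : Fin N → Fin N → ℂ)
    (hv : IsExceptional X T v) :
    [M.S = gramMatrix X T v,
      ConnectionFactors M (fun j => (twist X).mulVec (v j)),
      ConnectionIsometric M T v,
      ∀ w, M.Xminus (w + 2 * Real.pi * Complex.I) =
        M.Xminus w * ((gramMatrix X T v)⁻¹ * (gramMatrix X T v).transpose)].TFAE ∧
    ((∃ ε : Fin N → ℤˣ, M.S = gramMatrix X T (fun j => (ε j : ℤ) • v j)) ↔
      ∃ A : Matrix (Fin N) (Fin N) ℂ, IsIsometric M T A ∧
        ∀ j, GrowthAtMost M (A.mulVec (v j)) (M.u j)) ∧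
    (X.chern ≠ 0 → M.S = gramMatrix X T v → ¬ ConnectionFactors M v) :=
  ⟨(main M T hT v hv).1, growth M T v hv, (main M T hT v hv).2⟩

end Pool.Agent.Results.MP_78bf89_ag.StokesConnection
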