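import Pool.Agent.Helper7.T3.Final

/-!
# Black-box identity testing for sums of boundedly many products of programs of constant width
-/

namespace Pool.Agent.Helper7.Kept.SumProdConstWidth

open MvPolynomial Pool.Agent.Helper8 Pool.Agent.Helper7 Pool.Agent.Helper7.SumProdABP

theorem result (K a w k s n R : ℕ) :
    (LocalABP.points n (seeds K a w k s) R).card ≤
      ((R + 1) * (n * R + 1)) ^ seeds K a w k s ∧
    ∀ (d N m : ℕ) (lam : Fin N → ℚ) (g : Fin N → Fin m → MvPolynomial (Fin n) ℚ)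
      (e : Fin N → Fin m → ℕ), (∀ i j, Factor n a w k s d (g i j)) →
      (∀ b : Finset (Fin N),
        AlgebraicIndepOn ℚ (fun i => ∏ j, g i j ^ e i j) (b : Set (Fin N)) → b.card ≤ K) →
      ∑ i, C (lam i) * ∏ j, g i j ^ e i j ≠ 0 →
      ∀ f : MvPolynomial (Fin n) ℚ, f ∣ ∑ i, C (lam i) * ∏ j, g i j ^ e i j →
        (f.totalDegree ≤ R ∨ 2 ^ (N + 1) * (n * ∑ i, ∑ j, (g i j).totalDegree) + N ≤ R) →
        ∃ x ∈ LocalABP.points n (seeds K a w k s) R, eval x f ≠ 0 :=
  ⟨Loc.card_points _ _ _,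
    fun _ _ _ lam g e hg htr h0 f hf hR => T3.hit lam g e hg htr h0 f hf hR⟩

end Pool.Agent.Helper7.Kept.SumProdConstWidth
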